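import Pool.Agent.Helper88.PhiN

/-! The coefficient of a pair of sine modes (row E). -/

set_option autoImplicit false

namespace Phi4

open Real Filter MeasureTheory intervalIntegral Set

/-- the coefficient of the pair `(i, j)` at rate `κ` -/
noncomputable def pc (T κ : ℝ) (i j : ℕ) : ℝ :=
  3 / 2 * (1 / (κ ^ 2 - 2 + (om T i - om T j) ^ 2) - 1 / (κ ^ 2 - 2 + (om T i + om T j) ^ 2))

namespace h78

theorem om_add (T : ℝ) (i j : ℕ) : om T i + om T j = om T (i + j) := by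
  unfold om
  push_cast
  ring

theorem om_sub_of_le (T : ℝ) {i j : ℕ} (h : j ≤ i) : om T i - om T j = om T (i - j) := by
  unfold om
  rw [Nat.cast_sub h]
  ring

theorem sin_sub_T {T : ℝ} (hT : 0 < T) (i j : ℕ) : sin ((om T i - om T j) * T) = 0 := by
  rw [sub_mul, sin_sub, sin_om_T hT, sin_om_T hT]
  ring

theorem cos_sub_T {T : ℝ} (hT : 0 < T) (i j : ℕ) : cos ((om T i - om T j) * T) = 1 := by
  rw [sub_mul, cos_sub, sin_om_T hT, cos_om_T hT, cos_om_T hT]
  ring

theorem ne_sub {T κ : ℝ} (hres : ∀ a : ℕ, κ ^ 2 ≠ 2 - om T a ^ 2) (i j : ℕ) :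
    κ ^ 2 - 2 + (om T i - om T j) ^ 2 ≠ 0 := by
  intro h
  rcases le_total j i with hij | hij
  · rw [om_sub_of_le T hij] at h
    exact hres (i - j) (by linarith)
  · rw [show (om T i - om T j) ^ 2 = (om T j - om T i) ^ 2 by ring, om_sub_of_le T hij] at h
    exact hres (j - i) (by linarith)

theorem ne_add {T κ : ℝ} (hres : ∀ a : ℕ, κ ^ 2 ≠ 2 - om T a ^ 2) (i j : ℕ) :
    κ ^ 2 - 2 + (om T i + om T j) ^ 2 ≠ 0 := by
  intro h
  rw [om_add] at h
  exact hres (i + j) (by linarith)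

end h78

end Phi4
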