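import Pool.Agent.Helper78.Phi4.Pc
import Pool.Agent.Helper58.Phi4.Ode
import Pool.Agent.Helper64.Phi4.EvenExp

/-!
Row E of the project: the pair condition. For every rate `κ < 4 lam` which is not the rate of a free mode, the sum over the
pairs of sine modes with `lm i + lm j = κ` vanishes.
-/

set_option autoImplicit false

namespace Phi4

open Real Filter MeasureTheory intervalIntegral Set

theorem Ef_pair {T κ : ℝ} (hT : 0 < T) (hres : ∀ a : ℕ, κ ^ 2 ≠ 2 - om T a ^ 2) (i j : ℕ) :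
    Ef (κ ^ 2 - 2) (fun s => 3 * (sin (om T i * s) * sin (om T j * s))) T =
      (1 - Cf (κ ^ 2 - 2) T) * pc T κ i j := by
  have h1 : (fun s => 3 * (sin (om T i * s) * sin (om T j * s))) =
      fun s => (3 / 2 * cos ((om T i - om T j) * s)) + (-(3 / 2) * cos ((om T i + om T j) * s)) := by
    funext s
    rw [sub_mul, add_mul, cos_sub, cos_add]
    ring
  have c1 : Continuous fun s : ℝ => 3 / 2 * cos ((om T i - om T j) * s) := by fun_prop
  have c2 : Continuous fun s : ℝ => -(3 / 2) * cos ((om T i + om T j) * s) := by fun_prop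
  rw [h1, Ef_congr_add _ c1 c2, Ef_const_mul, Ef_const_mul,
    Ef_cos (h78.ne_sub hres i j) (h78.sin_sub_T hT i j) (h78.cos_sub_T hT i j),
    Ef_cos (h78.ne_add hres i j) (by rw [h78.om_add]; exact sin_om_T hT _) (by rw [h78.om_add]; exact cos_om_T hT _)]
  unfold pc
  ring

theorem WSol.ev_eb {T : ℝ} {w : ℝ → ℝ → ℝ} (W : WSol T w) (hT : 0 < T) {lam : ℝ}
    (hlam : 0 < lam) (hod : EB T lam (od w)) : EB T (2 * lam) (ev w) := by
  obtain ⟨C, X, hC, hX, h⟩ := hod.nonneg_const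
  obtain ⟨K, X0, hK, hev⟩ := W.ev_small hT
  refine ⟨K * (C * exp (lam * T)) ^ 2, max X0 (X + T), fun x hx t h0 h1 => ?_⟩
  have hx0 : X0 ≤ x := (le_max_left _ _).trans hx
  have hx1 : X + T ≤ x := (le_max_right _ _).trans hx
  have hb : 0 ≤ C * exp (lam * T) * exp (-lam * x) := by positivity
  obtain ⟨h2, -⟩ := hev x hx0 _ hb (fun y hy s hs0 hs1 => by
    rw [abs_le] at hy
    refine (h y (by linarith [hy.1]) s hs0 hs1).trans ?_
    rw [mul_assoc, ← exp_add]
    refine mul_le_mul_of_nonneg_left (exp_le_exp.2 ?_) hC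
    nlinarith [hy.1]) t h0 h1
  refine h2.trans (le_of_eq ?_)
  rw [show -(2 * lam) * x = -lam * x + -lam * x by ring, exp_add]
  ring

namespace h78

theorem eb_msum {T lam : ℝ} (B : ℕ → ℝ) (hB : ∀ j, B j ≠ 0 → lam ≤ lm T j) : EB T lam (msum T B) := by
  unfold msum
  refine EB.sum (ι := ℕ) _ fun j _ => ?_
  by_cases hj : B j = 0
  · exact (EB.zero T lam).congr fun x t _ _ => by rw [hj]; ring
  · refine (EB.mono (EB.profile (κ := lm T j) (F := fun t => B j * sin (om T j * t)) (by fun_prop)) (hB j hj)).congr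
      fun x t _ _ => by ring

theorem eb_one (T : ℝ) : EB T 0 (fun _ _ => 1) := ⟨1, 0, fun x _ t _ _ => by simp⟩

end h78

theorem WSol.pair_cond {T : ℝ} {w : ℝ → ℝ → ℝ} (W : WSol T w) (hT : 0 < T) {lam : ℝ}
    (hlam : 0 < lam) (B : ℕ → ℝ) (hB : ∀ j, B j ≠ 0 → lam ≤ lm T j)
    (hod : ∀ σ, σ < 3 * lam → EB T σ (fun x t => od w x t - msum T B x t))
    {κ : ℝ} (hκ : κ < 4 * lam) (hres : ∀ a : ℕ, κ ^ 2 ≠ 2 - om T a ^ 2) :
    ∑ p ∈ (Finset.range (JJ T + 1) ×ˢ Finset.range (JJ T + 1)).filter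
      (fun p => lm T p.1 + lm T p.2 = κ), B p.1 * B p.2 * pc T κ p.1 p.2 = 0 := by
  set σ : ℝ := max ((κ + 4 * lam) / 2) (3 * lam) with hσ
  have hσ1 : κ < σ := lt_of_lt_of_le (by linarith) (le_max_left _ _)
  have hσ2 : σ < 4 * lam := max_lt (by linarith) (by linarith)
  have hσ3 : 3 * lam ≤ σ := le_max_right _ _
  have em : EB T lam (msum T B) := h78.eb_msum B hB
  have er := hod (σ - lam) (by linarith)
  have eo : EB T lam (od w) :=
    (em.add (er.mono (by linarith : lam ≤ σ - lam))).congr fun x t _ _ => by ring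
  have ee : EB T (2 * lam) (ev w) := W.ev_eb hT hlam eo
  have e1 : EB T 0 (fun x t => 3 + ev w x t) :=
    (((h78.eb_one T).const_mul 3).add (ee.mono (by linarith : (0:ℝ) ≤ 2 * lam))).congr fun x t _ _ => by ring
  -- the terms of order four
  have t1 : EB T (4 * lam) (fun x t => ev w x t ^ 2 * (3 + ev w x t)) :=
    (((ee.mul ee).mul e1).mono (by linarith : 4 * lam ≤ 2 * lam + 2 * lam + 0)).congr fun x t _ _ => by ring
  have t2 : EB T (4 * lam) (fun x t => 3 * (od w x t ^ 2 * ev w x t)) :=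
    (((eo.mul eo).mul ee).const_mul 3 |>.mono (by linarith : 4 * lam ≤ lam + lam + 2 * lam)).congr
      fun x t _ _ => by ring
  -- the difference of the squares
  have t3 : EB T σ (fun x t => 3 * (od w x t ^ 2 - msum T B x t ^ 2)) := by
    have h1 := (em.add em).add (er.mono (by linarith : lam ≤ σ - lam))
    refine (((er.mul h1).const_mul 3).mono (by linarith : σ ≤ σ - lam + lam)).congr fun x t _ _ => by ring
  have hS : EB T σ (fun x t => srcS w x t - ∑ p ∈ Finset.range (JJ T + 1) ×ˢ Finset.range (JJ T + 1),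
      (fun s => B p.1 * B p.2 * (3 * (sin (om T p.1 * s) * sin (om T p.2 * s)))) t *
        exp (-(lm T p.1 + lm T p.2) * x)) := by
    refine ((t3.add (t1.mono hσ2.le)).add (t2.mono hσ2.le)).congr fun x t _ _ => ?_
    have hm : 3 * msum T B x t ^ 2 = ∑ p ∈ Finset.range (JJ T + 1) ×ˢ Finset.range (JJ T + 1),
      B p.1 * B p.2 * (3 * (sin (om T p.1 * t) * sin (om T p.2 * t))) * exp (-(lm T p.1 + lm T p.2) * x) := by
      unfold msum
      rw [sq, Finset.sum_mul_sum, ← Finset.sum_product', Finset.mul_sum]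
      refine Finset.sum_congr rfl fun p _ => ?_
      rw [show -(lm T p.1 + lm T p.2) * x = -lm T p.1 * x + -lm T p.2 * x by ring, exp_add]
      ring
    show srcS w x t - _ = _
    rw [← hm]
    unfold srcS
    ring
  have h := even_cond hT W.sEv W.eqn_ev W.ev_zero W.Dt_ev_zero W.ev_T
    (Finset.range (JJ T + 1) ×ˢ Finset.range (JJ T + 1)) (fun p => lm T p.1 + lm T p.2)
    (fun p s => B p.1 * B p.2 * (3 * (sin (om T p.1 * s) * sin (om T p.2 * s)))) (fun p => by fun_prop) σ hS κ hσ1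
  simp only [Ef_const_mul (κ ^ 2 - 2) (_ * _), Ef_pair hT hres] at h
  have h2 : (1 - Cf (κ ^ 2 - 2) T) * ∑ p ∈ (Finset.range (JJ T + 1) ×ˢ Finset.range (JJ T + 1)).filter
      (fun p => lm T p.1 + lm T p.2 = κ), B p.1 * B p.2 * pc T κ p.1 p.2 = 0 := by
    rw [← h, Finset.mul_sum]
    refine Finset.sum_congr rfl fun p _ => ?_
    ring
  exact (mul_eq_zero.1 h2).resolve_left (sub_ne_zero.2 (Cf_ne_one hT hres).symm)

end Phi4
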